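import Pool.Agent.helper84.VN.Spec4n
import Pool.Agent.helper14.VQE.NMB

/-!
# vn:JW4 (MP_07c750_an): the Jacobi equation for the difference of two orbits
-/

set_option autoImplicit false

open scoped MatrixGroups ContDiff Topology UpperHalfPlane ComplexConjugate ENNReal
open UpperHalfPlane MeasureTheory Filter Set

namespace Pool.Agent.VN

open Pool.Agent.RS Pool.Agent.VQ
open Pool.Agent.VQE (nm)

noncomputable section

theorem JW4_id (r n1 n2 h00 h10 h11 P M x : ℝ) (hr : r ≠ 0) :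
    (-(r * P) + ((h10 * x - h11 * P - M * n1) / (2 * r) - n2 / (2 * r) * ((n1 * x - n2 * P) / (2 * r)) / r)) -
      (((h00 * r + n2 / (2 * r) * n2) / (2 * r ^ 2) - n1 * (n1 / 2) / r ^ 3) * P + n1 / (2 * r ^ 2) * (-(r * M) + n2 / (2 * r) * x)) -
      (((h10 * r - n2 / (2 * r) * n1) / (2 * r ^ 2) - n2 * (n1 / 2) / r ^ 3) * x + n2 / (2 * r ^ 2) * ((n1 * x - n2 * P) / (2 * r) - n2 / (2 * r) * P)) =
      -(r ^ 2 * (-(1 + (h00 + h11) / (2 * r ^ 2) - (n1 ^ 2 + n2 ^ 2) / (2 * r ^ 4)) / r ^ 2) * -(r * P)) := by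
  field_simp
  ring

/-- quotients -/
theorem JW4_q {N R : ℝ → ℝ} {N' R' t : ℝ} (hN : HasDerivAt N N' t) (hR : HasDerivAt R R' t) (h0 : R t ≠ 0) :
    HasDerivAt (fun s => N s / (2 * R s ^ 2)) (N' / (2 * R t ^ 2) - N t * R' / R t ^ 3) t := by
  have h1 : HasDerivAt (fun s => 2 * R s ^ 2) (2 * (((2 : ℕ) : ℝ) * R t ^ (2 - 1) * R')) t := (hR.fun_pow 2).const_mul 2
  have h2 := hN.fun_div h1 (by positivity)
  refine h2.congr_deriv ?_
  push_cast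
  field_simp

theorem JW4_num {C ν e r r' κ κ' n1 n2 a b c d dr dk : ℝ} (hC : 1 ≤ C) (hν0 : 0 ≤ ν) (hν : ν ≤ 1 / 10) (he : 0 ≤ e)
    (hr1 : 1 / C ≤ r) (hr2 : r ≤ C) (hn1 : |n1| ≤ C) (hn2 : |n2| ≤ C) (hk : |κ| ≤ C) (hk' : |κ'| ≤ C)
    (ha : |a - 1| ≤ ν) (hb : |b| ≤ ν) (hc : |c| ≤ ν) (hd : |d - 1| ≤ ν)
    (h1 : |r' - r| ≤ C * (ν + e)) (h2 : |κ' - κ| ≤ C * (ν + e)) (h3 : |r' - r - dr| ≤ C * (ν ^ 2 + e)) (h4 : |κ' - κ - dk| ≤ C * (ν ^ 2 + e)) :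
    (|r * ((r' - r) / 2 * (b - c) - (κ' - κ) / 2 * (a - d))| ≤ (1 + 10 * C ^ 4) * (ν ^ 2 + e)) ∧
    (|(((κ' - κ) - dk) + (κ' - κ) / 2 * (a + d - 2) - (r' - r) / 2 * (b + c)) - n1 / (2 * r ^ 2) * (-((r' - r) / 2 * (b - c)) + (κ' - κ) / 2 * (a - d)) -
      n2 / (2 * r ^ 2) * (((r' - r) - dr) + (r' - r) / 2 * (a + d - 2) - (κ' - κ) / 2 * (b + c))| ≤ (1 + 10 * C ^ 4) * (ν ^ 2 + e)) ∧
    |(r' - r) / 2 * (a + d) - (κ + κ') / 2 * (b + c)| ≤ (1 + 10 * C ^ 4) * (ν + e) := by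
  have hC0 : 0 < C := by linarith
  have hr0 : 0 < r := lt_of_lt_of_le (by positivity) hr1
  have hC2 : 1 ≤ C ^ 2 := one_le_pow₀ hC
  have hC3 : C ≤ C ^ 4 := by
    calc C = C ^ 1 := (pow_one C).symm
      _ ≤ C ^ 4 := pow_le_pow_right₀ hC (by norm_num)
  have hC4 : C ^ 2 ≤ C ^ 4 := pow_le_pow_right₀ hC (by norm_num)
  have hM : |b - c| ≤ 2 * ν := by
    have := abs_sub b c
    linarith
  have hP : |b + c| ≤ 2 * ν := by
    have := abs_add_le b c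
    linarith
  have hx : |a - d| ≤ 2 * ν := by
    have h := abs_sub (a - 1) (d - 1)
    rw [show a - 1 - (d - 1) = a - d by ring] at h
    linarith
  have hS : |a + d - 2| ≤ 2 * ν := by
    have h := abs_add_le (a - 1) (d - 1)
    rw [show a - 1 + (d - 1) = a + d - 2 by ring] at h
    linarith
  have hνe : (ν + e) * ν ≤ ν ^ 2 + e := by nlinarith
  have hν2 : 0 ≤ ν ^ 2 + e := by positivity
  -- products of small numbers
  have pr : ∀ u v : ℝ, |u| ≤ C * (ν + e) → |v| ≤ 2 * ν → |u / 2 * v| ≤ C * (ν ^ 2 + e) := by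
    intro u v hu hv
    rw [abs_mul, abs_div, abs_of_pos (by norm_num : (0 : ℝ) < 2)]
    have h5 : |u| * |v| ≤ C * (ν + e) * (2 * ν) := mul_le_mul hu hv (abs_nonneg _) (by positivity)
    have h6 : C * ((ν + e) * ν) ≤ C * (ν ^ 2 + e) := mul_le_mul_of_nonneg_left hνe hC0.le
    nlinarith
  have p1 := pr _ _ h1 hM
  have p2 := pr _ _ h2 hx
  have p3 := pr _ _ h2 hS
  have p4 := pr _ _ h1 hP
  have p5 := pr _ _ h1 hS
  have p6 := pr _ _ h2 hP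
  have q0 : 1 / r ^ 2 ≤ C ^ 2 := by
    rw [div_le_iff₀ (by positivity)]
    have h5 : 1 ≤ C * r := by
      rw [div_le_iff₀ hC0] at hr1
      linarith
    have h6 : 1 ≤ (C * r) ^ 2 := one_le_pow₀ h5
    linarith [mul_pow C r 2]
  have q1 : ∀ n : ℝ, |n| ≤ C → |n / (2 * r ^ 2)| ≤ C ^ 3 / 2 := by
    intro n hn
    have e1 : n / (2 * r ^ 2) = n / 2 * (1 / r ^ 2) := by field_simp
    rw [e1, abs_mul, abs_div, abs_of_pos (by norm_num : (0 : ℝ) < 2), abs_of_pos (by positivity : 0 < 1 / r ^ 2)]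
    calc |n| / 2 * (1 / r ^ 2) ≤ C / 2 * C ^ 2 := mul_le_mul (by linarith) q0 (by positivity) (by positivity)
      _ = C ^ 3 / 2 := by ring
  refine ⟨?_, ?_, ?_⟩
  · rw [abs_mul, abs_of_pos hr0]
    have h5 : |(r' - r) / 2 * (b - c) - (κ' - κ) / 2 * (a - d)| ≤ 2 * (C * (ν ^ 2 + e)) := by
      have := abs_sub ((r' - r) / 2 * (b - c)) ((κ' - κ) / 2 * (a - d))
      linarith
    calc r * |(r' - r) / 2 * (b - c) - (κ' - κ) / 2 * (a - d)| ≤ C * (2 * (C * (ν ^ 2 + e))) :=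
          mul_le_mul hr2 h5 (abs_nonneg _) hC0.le
      _ = 2 * C ^ 2 * (ν ^ 2 + e) := by ring
      _ ≤ (1 + 10 * C ^ 4) * (ν ^ 2 + e) := by
          apply mul_le_mul_of_nonneg_right _ hν2
          linarith
  · have t1 : |((κ' - κ) - dk) + (κ' - κ) / 2 * (a + d - 2) - (r' - r) / 2 * (b + c)| ≤ 3 * (C * (ν ^ 2 + e)) := by
      have e1 := abs_sub ((κ' - κ - dk) + (κ' - κ) / 2 * (a + d - 2)) ((r' - r) / 2 * (b + c))
      have e2 := abs_add_le (κ' - κ - dk) ((κ' - κ) / 2 * (a + d - 2))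
      linarith
    have t2 : |-((r' - r) / 2 * (b - c)) + (κ' - κ) / 2 * (a - d)| ≤ 2 * (C * (ν ^ 2 + e)) := by
      have e1 := abs_add_le (-((r' - r) / 2 * (b - c))) ((κ' - κ) / 2 * (a - d))
      rw [abs_neg] at e1
      linarith
    have t3 : |((r' - r) - dr) + (r' - r) / 2 * (a + d - 2) - (κ' - κ) / 2 * (b + c)| ≤ 3 * (C * (ν ^ 2 + e)) := by
      have e1 := abs_sub ((r' - r - dr) + (r' - r) / 2 * (a + d - 2)) ((κ' - κ) / 2 * (b + c))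
      have e2 := abs_add_le (r' - r - dr) ((r' - r) / 2 * (a + d - 2))
      linarith
    have t4 : |n1 / (2 * r ^ 2) * (-((r' - r) / 2 * (b - c)) + (κ' - κ) / 2 * (a - d))| ≤ C ^ 3 / 2 * (2 * (C * (ν ^ 2 + e))) := by
      rw [abs_mul]
      exact mul_le_mul (q1 n1 hn1) t2 (abs_nonneg _) (by positivity)
    have t5 : |n2 / (2 * r ^ 2) * (((r' - r) - dr) + (r' - r) / 2 * (a + d - 2) - (κ' - κ) / 2 * (b + c))| ≤ C ^ 3 / 2 * (3 * (C * (ν ^ 2 + e))) := by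
      rw [abs_mul]
      exact mul_le_mul (q1 n2 hn2) t3 (abs_nonneg _) (by positivity)
    have e1 := abs_sub ((((κ' - κ) - dk) + (κ' - κ) / 2 * (a + d - 2) - (r' - r) / 2 * (b + c)) -
      n1 / (2 * r ^ 2) * (-((r' - r) / 2 * (b - c)) + (κ' - κ) / 2 * (a - d)))
      (n2 / (2 * r ^ 2) * (((r' - r) - dr) + (r' - r) / 2 * (a + d - 2) - (κ' - κ) / 2 * (b + c)))
    have e2 := abs_sub (((κ' - κ) - dk) + (κ' - κ) / 2 * (a + d - 2) - (r' - r) / 2 * (b + c))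
      (n1 / (2 * r ^ 2) * (-((r' - r) / 2 * (b - c)) + (κ' - κ) / 2 * (a - d)))
    have e3 : C ^ 3 / 2 * (2 * (C * (ν ^ 2 + e))) = C ^ 4 * (ν ^ 2 + e) := by ring
    have e4 : C ^ 3 / 2 * (3 * (C * (ν ^ 2 + e))) = 3 / 2 * C ^ 4 * (ν ^ 2 + e) := by ring
    have e5 : C * (ν ^ 2 + e) ≤ C ^ 4 * (ν ^ 2 + e) := mul_le_mul_of_nonneg_right hC3 hν2
    have e6 : 0 ≤ C ^ 4 * (ν ^ 2 + e) := by positivity
    rw [e3] at t4
    rw [e4] at t5
    linarith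
  · have e1 := abs_sub ((r' - r) / 2 * (a + d)) ((κ + κ') / 2 * (b + c))
    have e2 : |(r' - r) / 2 * (a + d)| ≤ C * (ν + e) * 2 := by
      rw [abs_mul, abs_div, abs_of_pos (by norm_num : (0 : ℝ) < 2)]
      have h5 : |a + d| ≤ 4 := by
        have := abs_add_le (a + d - 2) 2
        rw [show a + d - 2 + 2 = a + d by ring, abs_of_pos (by norm_num : (0 : ℝ) < 2)] at this
        linarith
      calc |r' - r| / 2 * |a + d| ≤ C * (ν + e) / 2 * 4 := mul_le_mul (by linarith) h5 (abs_nonneg _) (by positivity)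
        _ = _ := by ring
    have e3 : |(κ + κ') / 2 * (b + c)| ≤ 2 * C * ν := by
      rw [abs_mul, abs_div, abs_of_pos (by norm_num : (0 : ℝ) < 2)]
      have h5 := abs_add_le κ κ'
      calc |κ + κ'| / 2 * |b + c| ≤ C * (2 * ν) := mul_le_mul (by linarith) hP (abs_nonneg _) hC0.le
        _ = _ := by ring
    have e4 : C * (ν + e) ≤ C ^ 4 * (ν + e) := mul_le_mul_of_nonneg_right hC3 (by positivity)
    have e5 : 0 ≤ C * e := by positivity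
    have e6 : 0 ≤ C ^ 4 * (ν + e) := by positivity
    have e7 : 0 ≤ ν + e := by positivity
    linarith

theorem JW4_proof (hPN4 : PN4_stmt) : JW4_stmt := by
  intro k C
  have hC4 : 0 ≤ C ^ 4 := by positivity
  refine ⟨1 + 10 * C ^ 4, by linarith, ?_⟩
  intro D hF E E' t g g' hE hE' hnm
  have hC1 := hF.C1
  have hC0 : 0 < C := by linarith
  obtain ⟨G, hG⟩ : ∃ G, G = D.fl E t g := ⟨_, rfl⟩
  obtain ⟨X, hX⟩ : ∃ X, X = Xt D E E' g g' t := ⟨_, rfl⟩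
  have hGX : G * X = D.fl E' t g' := by
    rw [hG, hX]
    unfold Xt
    rw [mul_inv_cancel_left]
  obtain ⟨r, hr⟩ : ∃ r, r = rho D.U E G := ⟨_, rfl⟩
  obtain ⟨κ, hκ⟩ : ∃ κ, κ = kap D.U E G := ⟨_, rfl⟩
  obtain ⟨r', hr'⟩ : ∃ r', r' = rho D.U E' (G * X) := ⟨_, rfl⟩
  obtain ⟨κ', hκ'⟩ : ∃ κ', κ' = kap D.U E' (G * X) := ⟨_, rfl⟩
  obtain ⟨ha, hb, hc, hd⟩ := hPN4 k C D hF E E' t g g' hE hE' r κ r' κ' (by rw [hr, hG]) (by rw [hκ, hG])
    (by rw [hr', hGX]) (by rw [hκ', hGX])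
  obtain ⟨hdr, hd1, hd2⟩ := hF.dn E t g hE
  rw [← hG] at hdr hd1 hd2 ⊢
  rw [← hX] at ha hb hc hd hnm ⊢
  have hro := hF.ro E G hE
  rw [← hr] at hro hd1 hd2 ⊢
  rw [← hκ] at hd1 hd2
  have hr0 : 0 < r := lt_of_lt_of_le (by positivity) hro.1
  have hRt : rho D.U E (D.fl E t g) = r := by rw [← hG, hr]
  have hκ2 : κ = n2 D.U G / (2 * r) := by rw [hκ, hr]; rfl
  -- the three derivatives
  have hq1 := JW4_q hd1 hdr (by rw [hRt]; exact hr0.ne')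
  have hq2 := JW4_q hd2 hdr (by rw [hRt]; exact hr0.ne')
  have hJ := (hdr.fun_mul (hb.fun_add hc)).fun_neg
  have hW := ((hb.fun_sub hc).fun_sub (hq1.fun_mul (hb.fun_add hc))).fun_sub (hq2.fun_mul (ha.fun_sub hd))
  have hx := ha.fun_sub hd
  simp only [← hG, ← hX, ← hr] at hJ hW
  have hW' := hW.congr_of_eventuallyEq (f₁ := fun s => WX D.U E (D.fl E s g) (Xt D E E' g g' s))
    (Eventually.of_forall fun s => by
      unfold WX Wc kap
      ring)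
  -- the numbers
  obtain ⟨a, hea⟩ : ∃ a, a = X.1 0 0 := ⟨_, rfl⟩
  obtain ⟨b, heb⟩ : ∃ b, b = X.1 0 1 := ⟨_, rfl⟩
  obtain ⟨c, hec⟩ : ∃ c, c = X.1 1 0 := ⟨_, rfl⟩
  obtain ⟨d, hed⟩ : ∃ d, d = X.1 1 1 := ⟨_, rfl⟩
  have m1 : |a - 1| ≤ nm X := by
    have := VQE.NMB_le X 0 0
    simpa [← hea] using this
  have m2 : |b| ≤ nm X := by
    have := VQE.NMB_le X 0 1
    simpa [← heb] using this
  have m3 : |c| ≤ nm X := by
    have := VQE.NMB_le X 1 0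
    simpa [← hec] using this
  have m4 : |d - 1| ≤ nm X := by
    have := VQE.NMB_le X 1 1
    simpa [← hed] using this
  have l1 := hF.lr E E' G X hE hE'
  have l2 := hF.lk E E' G X hE hE'
  have l3 := hF.tr E E' G X hE hE' hnm
  have l4 := hF.tk E E' G X hE hE' hnm
  rw [← hr, ← hr'] at l1 l3
  rw [← hκ, ← hκ'] at l2 l4
  rw [← hea, ← heb, ← hec, ← hed] at l3 l4
  obtain ⟨num1, num2, num3⟩ := JW4_num hC1 (VQE.NMB_nonneg X) hnm (abs_nonneg (E' - E)) hro.1 hro.2 (hF.nb G).1 (hF.nb G).2.1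
    (by rw [hκ]; exact hF.ka E G hE) (by rw [hκ']; exact hF.ka E' (G * X) hE') m1 m2 m3 m4 l1 l2 l3 l4
  refine ⟨_, _, _, hJ, hW', hx, ?_, ?_, ?_⟩
  · refine le_of_eq_of_le (congrArg abs ?_) num1
    unfold WX Wc
    rw [← hea, ← heb, ← hec, ← hed, ← hr, ← hκ]
    field_simp
    ring
  · refine le_of_eq_of_le (congrArg abs ?_) num2
    have hid := JW4_id r (n1 D.U G) (n2 D.U G) (hess D.U G 0 0) (hess D.U G 1 0) (hess D.U G 1 1) (b + c) (b - c) (a - d) hr0.ne'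
    unfold JX Jc Kg dk dr
    rw [← hea, ← heb, ← hec, ← hed, ← hr, ← hκ]
    rw [← hκ2] at hid
    linear_combination hid
  · refine le_of_eq_of_le (congrArg abs ?_) num3
    rw [← hea, ← heb, ← hec, ← hed]
    ring

end

end Pool.Agent.VN
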