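import Pool.Agent.helper93.VN.SpecL
import Pool.Agent.helper71.VQ.RVA

/-!
# vn:LVA (MP_07c750_an): the averages are almost constant on a piece (copy of RVA by helper71)
-/

set_option autoImplicit false

open scoped MatrixGroups ContDiff Topology UpperHalfPlane ComplexConjugate ENNReal
open UpperHalfPlane MeasureTheory Filter Set

namespace Pool.Agent.VN

open Pool.Agent.RS Pool.Agent.VQ
open Pool.Agent.RPQ (mean)
open Pool.Agent.VQE (nm)

noncomputable section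

theorem LVA_F {C F : ℝ} (hC : 1 ≤ C) (hF : FM C ≤ F) : 1 / F ^ 4 ≤ 1 / (10 * C) ^ 20 ∧ 1200 * C ^ 6 ≤ F := by
  have h10 : (10 : ℝ) ≤ 10 * C := by linarith
  have h1 : (1 : ℝ) ≤ 10 * C := by linarith
  have he : 1 ≤ Real.exp (40 * C) := Real.one_le_exp (by linarith)
  have h2 : (10 * C) ^ 40 ≤ F := by
    refine le_trans ?_ hF
    unfold FM
    have : 0 < (10 * C) ^ 40 := by positivity
    nlinarith
  have h3 : (10 * C) ^ 20 ≤ (10 * C) ^ 40 := pow_le_pow_right₀ h1 (by norm_num)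
  have h4 : (1 : ℝ) ≤ (10 * C) ^ 20 := one_le_pow₀ h1
  have hF1 : 1 ≤ F := by linarith
  refine ⟨?_, ?_⟩
  · apply one_div_le_one_div_of_le (by positivity)
    calc (10 * C) ^ 20 ≤ F := by linarith
      _ = F ^ 1 := (pow_one F).symm
      _ ≤ F ^ 4 := pow_le_pow_right₀ hF1 (by norm_num)
  · have h5 : (10 * C) ^ 6 * (10 * C) ^ 34 = (10 * C) ^ 40 := by rw [← pow_add]
    have h6 : (10 * C) ^ 1 ≤ (10 * C) ^ 34 := pow_le_pow_right₀ h1 (by norm_num)
    rw [pow_one] at h6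
    have h7 : 0 < C ^ 6 := by positivity
    have h8 : (10 * C) ^ 6 = 1000000 * C ^ 6 := by ring
    rw [h8] at h5
    have h9 : 1000000 * C ^ 6 * 1 ≤ 1000000 * C ^ 6 * (10 * C) ^ 34 :=
      mul_le_mul_of_nonneg_left (by linarith) (by positivity)
    linarith

theorem LVA_int {c T : ℝ} (hc : 0 < c) : ∫ t in (0 : ℝ)..T, Real.exp (-((T - t) / c)) ≤ c := by
  have h1 : ∀ t ∈ uIcc (0 : ℝ) T, HasDerivAt (fun t => c * Real.exp (-((T - t) / c))) (Real.exp (-((T - t) / c))) t := by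
    intro t _
    have h2 : HasDerivAt (fun t : ℝ => -((T - t) / c)) (1 / c) t := by
      have h3 := (((hasDerivAt_id t).const_sub T).div_const c).neg
      have h4 : -(-1 / c) = 1 / c := by ring
      rw [h4] at h3
      exact h3
    have h3 := h2.exp.const_mul c
    have h4 : c * (Real.exp (-((T - t) / c)) * (1 / c)) = Real.exp (-((T - t) / c)) := by field_simp
    rw [h4] at h3
    exact h3
  rw [intervalIntegral.integral_eq_sub_of_hasDerivAt h1 (Continuous.intervalIntegrable (by fun_prop) _ _)]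
  have h2 := Real.exp_pos (-((T - 0) / c))
  rw [sub_self, zero_div, neg_zero, Real.exp_zero]
  have : 0 < c * Real.exp (-((T - 0) / c)) := by positivity
  linarith

/-- Row LVA. -/
theorem LVA_proof (hLGF : LGF_stmt) (hLDR : LDR_stmt) (hLJT : LJT_stmt) : LVA_stmt := by
  intro k C F D hFK hF h Lh hLh hlip E T γ x b c ℓ x' b' c' ℓ' hE hT hR hR' u u' huu hΛ
  obtain ⟨X, Y, Z, L, h0, hV, hCN, hL0, hgr, hRN, -⟩ := hLGF k C F D hFK hF E γ x b c ℓ hE hR
  have hC := hFK.c1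
  have hC0 : 0 < C := by linarith
  obtain ⟨hF1, hF2⟩ := LVA_F hC hF
  have hT0 : 0 < T := by linarith
  obtain ⟨-, -, -, hJ⟩ := (hLJT k C F D hFK hF E hE).2.2.2 2 2 _ x' b' c' ℓ' (X T) (Y T) (Z T) (L T) hR' (hRN T hT)
  have hLΛ : L T u' - L T u = ℓ' u' - ℓ' u := (hJ u u').symm
  obtain ⟨Λ, hΛd⟩ : ∃ Λ : ℝ, Λ = ℓ' u' - ℓ' u := ⟨_, rfl⟩
  rw [← hΛd] at hΛ hLΛ ⊢
  have hcont : ∀ g : SL(2, ℝ), Continuous fun t : ℝ => h (D.fl E t g • I) := by
    intro g
    have h1 : Continuous h := by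
      have h2 : LipschitzWith ⟨Lh, hLh⟩ h := LipschitzWith.of_dist_le_mul fun z w => by
        rw [Real.dist_eq]
        exact hlip z w
      exact h2.continuous
    have h2 : Continuous fun t : ℝ => D.fl E t g := by
      have h3 := hFK.cont.comp_continuous (f := fun t : ℝ => ((E, t, g) : ℝ × ℝ × SL(2, ℝ))) (by fun_prop) (fun t => hE)
      exact h3
    exact h1.comp (h2.smul continuous_const)
  have hpt : ∀ t ∈ Icc (0 : ℝ) T, |h (D.fl E t (γ u) • I) - h (D.fl E t (γ u') • I)| ≤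
      Lh * (400 * C ^ 4) * Λ * Real.exp (-((T - t) / (3 * C ^ 2))) := by
    intro t ht
    have h3 := (hgr t T u u' ht.1 ht.2 huu).1
    rw [hLΛ] at h3
    have h5 : 1 ≤ Real.exp ((T - t) / (3 * C ^ 2)) := Real.one_le_exp (div_nonneg (by linarith [ht.2]) (by positivity))
    have h4 : 0 ≤ L t u' - L t u := by
      have hm : Monotone (L t) := monotone_of_hasDerivAt_nonneg (fun v => (hCN t ht.1).dl v) (fun v => ((hCN t ht.1).pos v).le)
      linarith [hm huu]
    have h6 : L t u' - L t u ≤ 1 / (10 * C) ^ 20 := by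
      refine le_trans ?_ (hΛ.trans hF1)
      nlinarith
    have h7 := (hLDR k C D hFK E (fun v => D.fl E t (γ v)) (X t) (Y t) (Z t) (L t) hE (hCN t ht.1) u u' huu h6 _ rfl).1
    have h8 : L t u' - L t u ≤ Λ * Real.exp (-((T - t) / (3 * C ^ 2))) := by
      rw [Real.exp_neg, ← div_eq_mul_inv, le_div_iff₀ (Real.exp_pos _)]
      linarith
    have h9 : dist (D.fl E t (γ u) • I : ℍ) (D.fl E t (γ u') • I) ≤ 4 * nm ((D.fl E t (γ u))⁻¹ * D.fl E t (γ u')) := by
      have e1 : dist (D.fl E t (γ u) • I : ℍ) (D.fl E t (γ u') • I) = dist (((D.fl E t (γ u))⁻¹ * D.fl E t (γ u')) • I : ℍ) I := by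
        rw [dist_comm, ← dist_smul (D.fl E t (γ u)) ((((D.fl E t (γ u))⁻¹ * D.fl E t (γ u')) • I : ℍ)) I, smul_smul, mul_inv_cancel_left]
      rw [e1]
      exact VQ.RVA_dist _
    refine (hlip _ _).trans ?_
    have h10 : dist (D.fl E t (γ u) • I : ℍ) (D.fl E t (γ u') • I) ≤ 400 * C ^ 4 * (Λ * Real.exp (-((T - t) / (3 * C ^ 2)))) := by
      have h11 : 100 * C ^ 4 * (L t u' - L t u) ≤ 100 * C ^ 4 * (Λ * Real.exp (-((T - t) / (3 * C ^ 2)))) :=
        mul_le_mul_of_nonneg_left h8 (by positivity)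
      linarith
    calc Lh * dist (D.fl E t (γ u) • I : ℍ) (D.fl E t (γ u') • I) ≤ Lh * (400 * C ^ 4 * (Λ * Real.exp (-((T - t) / (3 * C ^ 2))))) :=
          mul_le_mul_of_nonneg_left h10 hLh
      _ = _ := by ring
  have hΛ0 : 0 ≤ Λ := by
    have hm : Monotone ℓ' := monotone_of_hasDerivAt_nonneg (fun v => hR'.dl v) (fun v => (hR'.pos v).le)
    linarith [hm huu]
  have hint := LVA_int (c := 3 * C ^ 2) (T := T) (by positivity)
  have hmain : |(∫ t in (0 : ℝ)..T, h (D.fl E t (γ u) • I)) - ∫ t in (0 : ℝ)..T, h (D.fl E t (γ u') • I)| ≤ F * Lh * Λ := by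
    rw [← intervalIntegral.integral_sub ((hcont _).intervalIntegrable _ _) ((hcont _).intervalIntegrable _ _)]
    refine (intervalIntegral.abs_integral_le_integral_abs hT0.le).trans ?_
    have h1 : ∫ t in (0 : ℝ)..T, |h (D.fl E t (γ u) • I) - h (D.fl E t (γ u') • I)| ≤
        ∫ t in (0 : ℝ)..T, Lh * (400 * C ^ 4) * Λ * Real.exp (-((T - t) / (3 * C ^ 2))) :=
      intervalIntegral.integral_mono_on hT0.le (((hcont _).sub (hcont _)).abs.intervalIntegrable _ _)
        (Continuous.intervalIntegrable (by fun_prop) _ _) hpt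
    refine h1.trans ?_
    rw [intervalIntegral.integral_const_mul]
    have h2 : 0 ≤ Lh * (400 * C ^ 4) * Λ := by positivity
    have h3 := mul_le_mul_of_nonneg_left hint h2
    have h4 : 0 ≤ Lh * Λ := by positivity
    have h5 := mul_le_mul_of_nonneg_right hF2 h4
    calc Lh * (400 * C ^ 4) * Λ * ∫ t in (0 : ℝ)..T, Real.exp (-((T - t) / (3 * C ^ 2)))
        ≤ Lh * (400 * C ^ 4) * Λ * (3 * C ^ 2) := h3
      _ = 1200 * C ^ 6 * (Lh * Λ) := by ring
      _ ≤ F * (Lh * Λ) := h5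
      _ = F * Lh * Λ := by ring
  show |T⁻¹ * (∫ s in (0 : ℝ)..T, h (D.fl E s (γ u) • I)) - T⁻¹ * ∫ s in (0 : ℝ)..T, h (D.fl E s (γ u') • I)| ≤ F * Lh * Λ
  rw [← mul_sub, abs_mul, abs_of_pos (inv_pos.2 hT0)]
  have h1 : T⁻¹ ≤ 1 := inv_le_one_of_one_le₀ hT
  calc T⁻¹ * _ ≤ 1 * |(∫ t in (0 : ℝ)..T, h (D.fl E t (γ u) • I)) - ∫ t in (0 : ℝ)..T, h (D.fl E t (γ u') • I)| :=
        mul_le_mul_of_nonneg_right h1 (abs_nonneg _)
    _ ≤ _ := by rw [one_mul]; exact hmain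

end

end Pool.Agent.VN
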