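import Pool.Agent.helper74.VN.SpecA
import Pool.Agent.helper58.VQ.VOV

/-!
# vn:NOV (MP_07c750_an): overlaps are localised (copy of VOV by helper58 for `ρ` in `[1/c, c]`)
-/

set_option autoImplicit false

open scoped MatrixGroups ContDiff Topology UpperHalfPlane ComplexConjugate ENNReal
open UpperHalfPlane MeasureTheory Filter Set

namespace Pool.Agent.VN

open Pool.Agent.RS Pool.Agent.VQ

theorem NOV_proof (hVTA : VQ.VTA_stmt) (hVNS : VQ.VNS_stmt) (hVSY : VQ.VSY_stmt) (hVCM : VQ.VCM_stmt) (hVCD : VQ.VCD_stmt) : NOV_stmt := by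
  obtain ⟨CT, hCT1, hCT⟩ := hVTA
  refine ⟨100, by norm_num, fun M η c hc hη hCη => ?_⟩
  have hc0 : 0 < c := by linarith
  have hη4 : η ≤ 1 / 100 := by linarith
  obtain ⟨K, hK⟩ : ∃ K : ℕ, M ≤ η * K := by
    obtain ⟨K, hK⟩ := exists_nat_ge (M / η)
    refine ⟨K, ?_⟩
    rw [div_le_iff₀ hη] at hK
    linarith
  obtain ⟨C1, hC1, hsym⟩ := VOV_sym hVSY K
  obtain ⟨Q, hQ⟩ : ∃ Q : ℝ, Q = 8 + 4 * (C1 * c) + 4 * (CT * c) := ⟨_, rfl⟩
  have hC1c : C1 ≤ C1 * c := by nlinarith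
  have hc1C : c ≤ C1 * c := by nlinarith
  have hCTc : CT ≤ CT * c := by nlinarith
  have hcCT : c ≤ CT * c := by nlinarith
  have hQ8 : 16 ≤ Q := by linarith
  have hQ0 : 0 < Q := by linarith
  refine ⟨K, Q ^ (1 / η), Real.one_le_rpow (by linarith) (by positivity), ?_⟩
  intro R ρ1 ρ2 m1 m2 f1 f2 g1 g2 hR hρ1 hρ2 hm1 hm2 hf1 hf2
  have hρ10 : 0 < ρ1 := lt_of_lt_of_le (by positivity) hρ1.1
  have hρ20 : 0 < ρ2 := lt_of_lt_of_le (by positivity) hρ2.1
  obtain ⟨A1, hA1, hA1s, hA1b, hA1f⟩ := hf1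
  obtain ⟨A2, hA2, hA2s, hA2b, hA2f⟩ := hf2
  -- the powers of `R`
  have hR0 : 0 < R := lt_of_lt_of_le (Real.rpow_pos_of_pos hQ0 _) hR
  have hX : Q ≤ R ^ η := by
    calc Q = (Q ^ (1 / η)) ^ η := by rw [← Real.rpow_mul hQ0.le, one_div_mul_cancel hη.ne', Real.rpow_one]
      _ ≤ R ^ η := Real.rpow_le_rpow (Real.rpow_nonneg hQ0.le _) hR hη.le
  have hR1 : 1 < R := by
    by_contra h
    push Not at h
    have := Real.rpow_le_one hR0.le h hη.le
    linarith
  have hmono : ∀ {x y : ℝ}, x ≤ y → R ^ x ≤ R ^ y := fun h => Real.rpow_le_rpow_of_exponent_le hR1.le h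
  obtain ⟨q, hq⟩ : ∃ q : ℝ, q = R ^ (-(1 / 2) + η) := ⟨_, rfl⟩
  obtain ⟨N0, hN0⟩ : ∃ N0 : ℝ, N0 = R ^ (1 / 2 + η) := ⟨_, rfl⟩
  obtain ⟨t, ht⟩ : ∃ t : ℝ, t = R ^ (-(1 / 2) + 3 * η) := ⟨_, rfl⟩
  rw [← hN0] at hA1b hA2b
  rw [← hq] at hA1s hA2s
  have hq0 : 0 < q := by rw [hq]; exact Real.rpow_pos_of_pos hR0 _
  have ht0 : 0 < t := by rw [ht]; exact Real.rpow_pos_of_pos hR0 _
  have hXi : R ^ (-η) ≤ 1 / Q := by
    rw [Real.rpow_neg hR0.le, one_div]
    exact inv_anti₀ hQ0 hX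
  have hQi : 1 / Q ≤ 1 / 16 := one_div_le_one_div_of_le (by norm_num) hQ8
  have hqX : q ≤ R ^ (-η) := by rw [hq]; exact hmono (by linarith)
  have htX : t ≤ R ^ (-η) := by rw [ht]; exact hmono (by linarith)
  have hqQ : q * Q ≤ 1 := by
    have := hqX.trans hXi
    rwa [le_div_iff₀ hQ0] at this
  have htQ : t * Q ≤ 1 := by
    have := htX.trans hXi
    rwa [le_div_iff₀ hQ0] at this
  have hq8 : q ≤ 1 / 8 := by linarith
  have ht8 : t ≤ 1 / 16 := by linarith
  have hqt : q < t := by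
    rw [hq, ht]
    exact Real.rpow_lt_rpow_of_exponent_lt hR1 (by linarith)
  have hN01 : 1 ≤ N0 := by rw [hN0]; exact Real.one_le_rpow hR1.le (by linarith)
  have hqN : 1 ≤ q * N0 := by
    rw [hq, hN0, ← Real.rpow_add hR0]
    exact Real.one_le_rpow hR1.le (by linarith)
  have hRq : R * q ^ 3 = t := by
    have h1 : q ^ 3 = R ^ (3 * (-(1 / 2) + η)) := by
      rw [hq, ← Real.rpow_natCast, ← Real.rpow_mul hR0.le]
      congr 1
      push_cast
      ring
    rw [h1, ht]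
    conv_lhs => rw [← Real.rpow_one R, ← Real.rpow_mul hR0.le, ← Real.rpow_add hR0]
    congr 1
    ring
  -- the values
  have hA1n : ∀ v, ‖A1 v‖ ≤ m1 := by
    intro v
    have := hA1b 0 (Nat.zero_le _) v
    rwa [norm_iteratedFDeriv_zero, pow_zero, mul_one] at this
  have hA2n : ∀ v, ‖A2 v‖ ≤ m2 := by
    intro v
    have := hA2b 0 (Nat.zero_le _) v
    rwa [norm_iteratedFDeriv_zero, pow_zero, mul_one] at this
  have hf1n : ∀ v, ‖f1 v‖ = ‖A1 v‖ := by
    intro v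
    rw [hA1f, norm_mul, Complex.norm_exp_ofReal_mul_I, one_mul]
  have hf2n : ∀ v, ‖f2 v‖ = ‖A2 v‖ := by
    intro v
    rw [hA2f, norm_mul, Complex.norm_exp_ofReal_mul_I, one_mul]
  have hf1s : ∀ v, f1 v ≠ 0 → ‖v‖ ≤ q := by
    intro v hv
    refine hA1s v fun h => hv ?_
    rw [← norm_eq_zero, hf1n, h, norm_zero]
  have hf2s : ∀ v, f2 v ≠ 0 → ‖v‖ ≤ q := by
    intro v hv
    refine hA2s v fun h => hv ?_
    rw [← norm_eq_zero, hf2n, h, norm_zero]
  have hcov := VOV_cov hVCD hVCM f1 f2 g1 g2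
  obtain ⟨J, hJ⟩ : ∃ J : ℂ, J = ∫ z : ℍ, f1 (cd (g1⁻¹ • z)) * conj (f2 (cd (g2⁻¹ • z))) := ⟨_, rfl⟩
  have hsup : J ≠ 0 → dist (g1 • I : ℍ) (g2 • I) ≤ 4 * q ∧ dist ((g1⁻¹ * g2) • I : ℍ) I ≤ 4 * q ∧ ‖cd ((g1⁻¹ * g2) • I)‖ ≤ 4 * q := by
    intro hne
    obtain ⟨z, hz⟩ : ∃ z : ℍ, f1 (cd (g1⁻¹ • z)) * conj (f2 (cd (g2⁻¹ • z))) ≠ 0 := by
      by_contra h
      push Not at h
      apply hne
      rw [hJ]
      simp only [h, integral_zero]
    refine VOV_sup hVCD hq8 g1 g2 z (hf1s _ (left_ne_zero_of_mul hz)) (hf2s _ fun h => ?_)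
    rw [h, map_zero, mul_zero] at hz
    exact hz rfl
  rw [← hJ] at hcov ⊢
  refine ⟨?_, ?_, ?_⟩
  · rw [hcov]
    refine (VOV_bd hq0 hq8 hm1 hm2 f1 _ (fun v => (hf1n v).le.trans (hA1n v)) (fun v => ?_) hf1s).trans ?_
    · rw [Complex.norm_conj, hf2n]
      exact hA2n _
    · have h1 : q ^ 2 = R ^ (-1 + 2 * η) := by
        rw [hq, ← Real.rpow_natCast, ← Real.rpow_mul hR0.le]
        congr 1
        push_cast
        ring
      have h2 : R ^ (-1 + 3 * η) = R ^ (-1 + 2 * η) * R ^ η := by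
        rw [← Real.rpow_add hR0]
        congr 1
        ring
      rw [h2, ← h1]
      have h3 : 0 ≤ m1 * m2 * q ^ 2 := by positivity
      nlinarith
  · intro hne
    have := (hsup hne).1
    linarith
  · intro hnot
    by_cases hne : J = 0
    · rw [hne, norm_zero]
      have : 0 ≤ R ^ (-M) := Real.rpow_nonneg hR0.le _
      positivity
    obtain ⟨s1, s2, s3⟩ := hsup hne
    obtain ⟨α, hα1, hα2⟩ := hCT (g1⁻¹ * g2) (by linarith)
    obtain ⟨w, hw⟩ : ∃ w : ℂ, w = cd ((g1⁻¹ * g2) • I) := ⟨_, rfl⟩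
    rw [← hw] at s3 hα1 hα2
    obtain ⟨e, he⟩ : ∃ e : ℂ, e = Complex.exp (-((α : ℂ) * Complex.I)) := ⟨_, rfl⟩
    rw [← he] at hα1
    have hen : ‖e‖ = 1 := by
      have h1 : -((α : ℂ) * Complex.I) = ((-α : ℝ) : ℂ) * Complex.I := by
        push_cast
        ring
      rw [he, h1, Complex.norm_exp_ofReal_mul_I]
    have hec : Complex.exp ((α : ℂ) * Complex.I) = conj e := by
      rw [he, ← Complex.exp_conj, map_neg, map_mul, Complex.conj_ofReal, Complex.conj_I, mul_neg, neg_neg]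
    rw [hec] at hα2
    obtain ⟨ξ, hξ⟩ : ∃ ξ : ℂ, ξ = (ρ1 : ℂ) - (ρ2 : ℂ) * conj e := ⟨_, rfl⟩
    have hw1 : ‖w‖ ≤ 1 := by linarith
    rcases lt_or_ge ‖ξ‖ t with hcase | hcase
    · exfalso
      apply hnot
      have hce : ‖conj e‖ = 1 := by rw [Complex.norm_conj, hen]
      have r1 : |ρ1 - ρ2| ≤ ‖ξ‖ := by
        have h1 := abs_norm_sub_norm_le (ρ1 : ℂ) ((ρ2 : ℂ) * conj e)
        rw [norm_mul, hce, mul_one, Complex.norm_real, Complex.norm_real, Real.norm_eq_abs, Real.norm_eq_abs,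
          abs_of_nonneg hρ10.le, abs_of_nonneg hρ20.le, ← hξ] at h1
        exact h1
      have r2 : ‖conj e - 1‖ < 4 * (c * t) := by
        have h1 : (ρ2 : ℂ) * (conj e - 1) = ((ρ1 - ρ2 : ℝ) : ℂ) - ξ := by
          rw [hξ]
          push_cast
          ring
        have h2 : ρ2 * ‖conj e - 1‖ = ‖((ρ1 - ρ2 : ℝ) : ℂ) - ξ‖ := by
          rw [← h1, norm_mul, Complex.norm_real, Real.norm_eq_abs, abs_of_nonneg hρ20.le]
        have h3 := norm_sub_le ((ρ1 - ρ2 : ℝ) : ℂ) ξ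
        rw [Complex.norm_real, Real.norm_eq_abs] at h3
        have h4 : 1 / c * ‖conj e - 1‖ ≤ ρ2 * ‖conj e - 1‖ := mul_le_mul_of_nonneg_right hρ2.1 (norm_nonneg _)
        have h5 : 1 / c * ‖conj e - 1‖ < 4 * t := by linarith
        have h6 : ‖conj e - 1‖ = c * (1 / c * ‖conj e - 1‖) := by field_simp
        rw [h6]
        nlinarith
      have hct : 4 * (c * t) ≤ 1 := by nlinarith
      have htc : t ≤ c * t := by nlinarith
      have r3 := hα2 (4 * (c * t)) (by positivity) hct (by linarith) r2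
      have r4 : R ^ (-(1 / 2) + 3 * η) * R ^ η = R ^ (-(1 / 2) + 4 * η) := by
        rw [← Real.rpow_add hR0]
        congr 1
        ring
      have r5 : R ^ (-(1 / 2) + 4 * η) ≤ R ^ (-(1 / 2) + 100 * η) := hmono (by linarith)
      rw [← ht] at r4
      refine ⟨VOV_Bo r3 ?_, ?_⟩
      · have : CT * (4 * (c * t)) ≤ t * R ^ η := by
          have h7 : CT * (4 * (c * t)) = (4 * (CT * c)) * t := by ring
          have h8 : 4 * (CT * c) ≤ R ^ η := by
            have : 0 < C1 * c := by positivity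
            linarith
          rw [h7, mul_comm t]
          exact mul_le_mul_of_nonneg_right h8 ht0.le
        linarith
      · have : t ≤ t * R ^ η := by nlinarith
        linarith
    · have hξ0 : ξ ≠ 0 := by
        intro h
        rw [h, norm_zero] at hcase
        linarith
      have ha0 : 0 ≤ R * ρ2 := by positivity
      obtain ⟨hB1, hB2⟩ := hsym q N0 (R * ρ2) m1 m2 A1 A2 e w hq0 hq8 hN01 hqN ha0 (by
        have h1 : C1 * (R * ρ2) * q ^ 3 = C1 * ρ2 * (R * q ^ 3) := by ring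
        rw [h1, hRq]
        have h2 : C1 * ρ2 ≤ Q := by
          have h9 : C1 * ρ2 ≤ C1 * c := mul_le_mul_of_nonneg_left hρ2.2 (by linarith)
          have : 0 < CT * c := by positivity
          linarith
        nlinarith) hm1 hm2 hen s3 hA1 hA1s hA1b hA2 hA2b
      have hns := hVNS K R q (C1 * m1 * m2) (C1 * N0) ξ (VOV_B A1 A2 e w (R * ρ2)) hR0 hq0 (by positivity) (by positivity) hξ0 hB1
        (fun v hv => hA1s v fun h => hv (by unfold VOV_B; rw [h, zero_mul])) hB2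
      have hJ2 : J = Complex.exp (((R * ρ2 * (e * w).re : ℝ) : ℂ) * Complex.I) *
          ∫ v : ℂ, VOV_B A1 A2 e w (R * ρ2) v * Complex.exp (((R * (ξ.re * v.re + ξ.im * v.im) : ℝ) : ℂ) * Complex.I) := by
        have e1 : ∫ v in Metric.ball (0 : ℂ) 2, Complex.exp (((R * ρ2 * (e * w).re : ℝ) : ℂ) * Complex.I) *
            (VOV_B A1 A2 e w (R * ρ2) v * Complex.exp (((R * (ξ.re * v.re + ξ.im * v.im) : ℝ) : ℂ) * Complex.I)) =
            ∫ v : ℂ, Complex.exp (((R * ρ2 * (e * w).re : ℝ) : ℂ) * Complex.I) *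
            (VOV_B A1 A2 e w (R * ρ2) v * Complex.exp (((R * (ξ.re * v.re + ξ.im * v.im) : ℝ) : ℂ) * Complex.I)) := by
          refine setIntegral_eq_integral_of_forall_compl_eq_zero fun v hv => ?_
          have h1 : A1 v = 0 := by
            by_contra h
            apply hv
            rw [mem_ball_zero_iff]
            linarith [hA1s v h]
          unfold VOV_B
          rw [h1, zero_mul, zero_mul, mul_zero]
        rw [hcov, ← integral_const_mul, ← e1]
        refine setIntegral_congr_fun Metric.isOpen_ball.measurableSet fun v hv => ?_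
        rw [mem_ball_zero_iff] at hv
        exact VOV_ph hA1f hA2f hξ hw1 hv (hα1 v hv)
      rw [hJ2, norm_mul, Complex.norm_exp_ofReal_mul_I, one_mul]
      refine hns.trans ?_
      -- numbers
      have hξp : 0 < ‖ξ‖ := norm_pos_iff.2 hξ0
      have n1 : C1 * N0 / (R * ‖ξ‖) ≤ R ^ (-η) := by
        rw [div_le_iff₀ (by positivity)]
        have h1 : R ^ (-η) * (R * t) = N0 * R ^ η := by
          rw [ht, hN0]
          have h2 : R * R ^ (-(1 / 2) + 3 * η) = R ^ (1 / 2 + 3 * η) := by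
            conv_lhs => rw [← Real.rpow_one R, ← Real.rpow_mul hR0.le, ← Real.rpow_add hR0]
            congr 1
            ring
          rw [h2, ← Real.rpow_add hR0, ← Real.rpow_add hR0]
          congr 1
          ring
        have h3 : R ^ (-η) * (R * t) ≤ R ^ (-η) * (R * ‖ξ‖) :=
          mul_le_mul_of_nonneg_left (mul_le_mul_of_nonneg_left hcase hR0.le) (Real.rpow_nonneg hR0.le _)
        have h4 : C1 * N0 ≤ N0 * R ^ η := by nlinarith
        linarith
      have n2 : (C1 * N0 / (R * ‖ξ‖)) ^ K ≤ R ^ (-M) := by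
        calc (C1 * N0 / (R * ‖ξ‖)) ^ K ≤ (R ^ (-η)) ^ K := pow_le_pow_left₀ (by positivity) n1 K
          _ = R ^ (-η * K) := by rw [← Real.rpow_natCast, ← Real.rpow_mul hR0.le]
          _ ≤ R ^ (-M) := hmono (by linarith)
      have n3 : 4 * q ^ 2 * C1 ≤ 1 := by
        have h1 : q ^ 2 ≤ q := by nlinarith
        have h2 : 4 * C1 ≤ Q := by linarith
        nlinarith
      have n4 : 0 ≤ R ^ (-M) := Real.rpow_nonneg hR0.le _
      calc 4 * q ^ 2 * (C1 * m1 * m2) * (C1 * N0 / (R * ‖ξ‖)) ^ K ≤ 4 * q ^ 2 * (C1 * m1 * m2) * R ^ (-M) :=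
            mul_le_mul_of_nonneg_left n2 (by positivity)
        _ = (4 * q ^ 2 * C1) * (m1 * m2 * R ^ (-M)) := by ring
        _ ≤ 1 * (m1 * m2 * R ^ (-M)) := mul_le_mul_of_nonneg_right n3 (by positivity)
        _ = m1 * m2 * R ^ (-M) := one_mul _

end Pool.Agent.VN
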